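import Pool.Agent.Q66.DS.Stm
import Pool.Agent.H813R2.CS.T_FRO
import Pool.Agent.W342.AG.Cap2

/-!
Project DS: Frostman measures on compact subsets of a Borel set of the line.
-/

set_option autoImplicit false

open MeasureTheory Set Metric

namespace Pool.Agent.Q225.DS

open Pool.Agent.Q66.DS H813.CS

theorem t_FROB : S_FROB := by
  intro A α hA hα hdim
  have hm : Measurable fun p : EuclideanSpace ℝ (Fin 1) => p 0 := by fun_prop
  have hpre : ∀ S : Set ℝ, (fun p : EuclideanSpace ℝ (Fin 1) => p 0) ⁻¹' S = froI '' S := by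
    intro S
    ext p
    constructor
    · intro h
      exact ⟨p 0, h, froI_coord p⟩
    · rintro ⟨x, hx, rfl⟩
      exact hx
  have hE : MeasurableSet (froI '' A) := by
    rw [← hpre A]
    exact hm hA
  have hd2 : ENNReal.ofReal α < dimH (froI '' A) := by
    rwa [froI_isometry.dimH_image]
  obtain ⟨K', hK'A, hK', hK'd⟩ := Pool.Agent.W342.AG.cap 1 (froI '' A) hE α hα.le hd2
  obtain ⟨K, hKdef⟩ : ∃ K : Set ℝ, K = (fun p : EuclideanSpace ℝ (Fin 1) => p 0) '' K' := ⟨_, rfl⟩
  have hKc : IsCompact K := by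
    rw [hKdef]
    exact hK'.image (by fun_prop)
  have hKA : K ⊆ A := by
    rw [hKdef]
    rintro _ ⟨p, hp, rfl⟩
    obtain ⟨x, hx, hxp⟩ := hK'A hp
    show p 0 ∈ A
    rw [← hxp]
    exact hx
  have hKd : ENNReal.ofReal α < dimH K := by
    have h1 : froI '' K = K' := by
      rw [hKdef]
      ext p
      constructor
      · rintro ⟨_, ⟨q, hq, rfl⟩, rfl⟩
        show froI (q 0) ∈ K'
        rw [froI_coord]
        exact hq
      · intro hp
        exact ⟨p 0, ⟨p, hp, rfl⟩, froI_coord p⟩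
    rw [← froI_isometry.dimH_image, h1]
    exact hK'd
  obtain ⟨μ, hμ, hμK, C, hC, hball⟩ := t_FRO K α hKc hα hKd
  obtain ⟨L, hL⟩ := hKc.isBounded.subset_closedBall 0
  refine ⟨K, μ, C, L, hKA, hKc, hμK, hC, hμ, ?_, fun x r hr => hball x r hr⟩
  refine measure_mono_null (compl_subset_compl.2 ?_) hμK
  rw [Real.closedBall_eq_Icc, zero_sub, zero_add] at hL
  exact hL

end Pool.Agent.Q225.DS
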