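import Pool.Agent.Q66.DS.Basic

/-!
Project DS: pairs of indices.
-/

set_option autoImplicit false

open MeasureTheory Set Metric

namespace Pool.Agent.Q225.DS

open Pool.Agent.Q66.DS

theorem pairs_sum (N : ℕ) (J : Finset ℤ) (hJ : J ⊆ Finset.Ico 0 (N : ℤ)) (f : ℤ → ℤ → ℝ) :
    ∑ i ∈ J, ∑ j ∈ J, f i j
      = ∑ p ∈ Finset.Ioo (-(N : ℤ)) N, ∑ i ∈ Dp J p, f i (i + p) := by
  classical
  have h1 : ∀ i ∈ J, ∑ j ∈ J, f i j
      = ∑ p ∈ Finset.Ioo (-(N : ℤ)) N, if i + p ∈ J then f i (i + p) else 0 := by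
    intro i hi
    rw [← Finset.sum_filter]
    refine Finset.sum_nbij' (fun j => j - i) (fun p => i + p) ?_ ?_ ?_ ?_ ?_
    · intro j hj
      rw [Finset.mem_filter, Finset.mem_Ioo]
      have a1 := Finset.mem_Ico.1 (hJ hi)
      have a2 := Finset.mem_Ico.1 (hJ hj)
      refine ⟨⟨by omega, by omega⟩, ?_⟩
      rw [add_sub_cancel]
      exact hj
    · intro p hp
      rw [Finset.mem_filter] at hp
      exact hp.2
    · intro j _
      exact add_sub_cancel i j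
    · intro p _
      exact add_sub_cancel_left i p
    · intro j _
      rw [add_sub_cancel]
  rw [Finset.sum_congr rfl h1, Finset.sum_comm]
  refine Finset.sum_congr rfl fun p _ => ?_
  unfold Dp
  rw [Finset.sum_filter]

theorem t_PAIRS (h1 : S_RATIO) (h2 : S_GRID) (h3 : S_L2) : S_PAIRS := by
  intro α C L hα hα1 hC
  obtain ⟨C1, hC1, hgrid⟩ := h2 α C L hα hα1 hC
  obtain ⟨C2, hC2, hl2⟩ := h3 α C L hα1 hC
  refine ⟨C1 * C2 * (5 : ℝ) ^ (1 - α), by positivity, ?_⟩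
  intro μ hμ R N hR hRN J y hJ
  have hR0 : 0 < R := by linarith
  have := hμ.1
  have hφ := continuous_ch μ
  obtain ⟨X, hX⟩ : ∃ X : ℤ → ℝ, X = fun p => ∫ ζ in R..(6 * R),
      ‖ch μ ζ‖ ^ 2 * ‖ch μ (sN N p * ζ)‖ ^ 2 := ⟨_, rfl⟩
  obtain ⟨Y, hY⟩ : ∃ Y : ℤ → ℝ, Y = fun p => ∑ i ∈ Dp J p, ∑ j ∈ Dp J p,
      kr (3 * R) (Ph N y i p - Ph N y j p) := ⟨_, rfl⟩
  have hX0 : ∀ p, 0 ≤ X p := by
    intro p
    rw [hX]
    exact intervalIntegral.integral_nonneg (by linarith) fun ζ _ => by positivity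
  have hY0 : ∀ p, 0 ≤ Y p := by
    intro p
    rw [hY]
    exact Finset.sum_nonneg fun i _ => Finset.sum_nonneg fun j _ => kr_nonneg _ _ (by positivity)
  have hcs : ∀ p, (∑ i ∈ Dp J p, ‖GG μ N R y i (i + p)‖) ^ 2 ≤ X p * Y p := by
    intro p
    have key := h1 (ch μ) hφ R (sN N p) hR0 (sN_pos N p) (Dp J p) (sN N)
      (fun i => y i - y (i + p)) (fun i hi => sN_mem N hJ (Finset.mem_filter.1 hi).1)
    have e1 : ∀ i, GG μ N R y i (i + p) = ∫ ξ in R..(2 * R), ch μ (sN N i * ξ) *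
        (starRingEnd ℂ) (ch μ (sN N p * (sN N i * ξ))) * e (-((y i - y (i + p)) * ξ)) := by
      intro i
      unfold GG
      have e2 : ∀ ξ : ℝ, sN N (i + p) * ξ = sN N p * (sN N i * ξ) := fun ξ => by
        rw [sN_add]
        ring
      simp only [e2]
    simp only [e1]
    rw [hX, hY]
    exact key
  have hsum : (∑ p ∈ Finset.Ioo (-(N : ℤ)) N, ∑ i ∈ Dp J p, ‖GG μ N R y i (i + p)‖) ^ 2
      ≤ (∑ p ∈ Finset.Ioo (-(N : ℤ)) N, X p) * ∑ p ∈ Finset.Ioo (-(N : ℤ)) N, Y p := by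
    have a1 : ∑ p ∈ Finset.Ioo (-(N : ℤ)) N, ∑ i ∈ Dp J p, ‖GG μ N R y i (i + p)‖
        ≤ ∑ p ∈ Finset.Ioo (-(N : ℤ)) N, √(X p) * √(Y p) := by
      refine Finset.sum_le_sum fun p _ => ?_
      rw [← Real.sqrt_mul (hX0 p)]
      exact Real.le_sqrt_of_sq_le (hcs p)
    have a0 : 0 ≤ ∑ p ∈ Finset.Ioo (-(N : ℤ)) N, ∑ i ∈ Dp J p, ‖GG μ N R y i (i + p)‖ :=
      Finset.sum_nonneg fun _ _ => Finset.sum_nonneg fun _ _ => norm_nonneg _
    refine (pow_le_pow_left₀ a0 a1 2).trans ?_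
    refine (Finset.sum_mul_sq_le_sq_mul_sq _ _ _).trans (le_of_eq ?_)
    congr 1
    · exact Finset.sum_congr rfl fun p _ => Real.sq_sqrt (hX0 p)
    · exact Finset.sum_congr rfl fun p _ => Real.sq_sqrt (hY0 p)
  have hXs : ∑ p ∈ Finset.Ioo (-(N : ℤ)) N, X p
      ≤ C1 * C2 * (5 : ℝ) ^ (1 - α) * N * R ^ (1 - 2 * α) := by
    have b1 : ∑ p ∈ Finset.Ioo (-(N : ℤ)) N, X p = ∫ ζ in R..(6 * R),
        ∑ p ∈ Finset.Ioo (-(N : ℤ)) N, ‖ch μ ζ‖ ^ 2 * ‖ch μ (sN N p * ζ)‖ ^ 2 := by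
      rw [intervalIntegral.integral_finsetSum, hX]
      intro p _
      exact Continuous.intervalIntegrable (by fun_prop) _ _
    have b2 : ∫ ζ in R..(6 * R),
        ∑ p ∈ Finset.Ioo (-(N : ℤ)) N, ‖ch μ ζ‖ ^ 2 * ‖ch μ (sN N p * ζ)‖ ^ 2
        ≤ ∫ ζ in R..(6 * R), ‖ch μ ζ‖ ^ 2 * (C1 * N * R ^ (-α)) := by
      refine intervalIntegral.integral_mono_on (by linarith) ?_ ?_ fun ζ hζ => ?_
      · exact Continuous.intervalIntegrable (by fun_prop) _ _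
      · exact Continuous.intervalIntegrable (by fun_prop) _ _
      · rw [← Finset.mul_sum]
        exact mul_le_mul_of_nonneg_left (hgrid μ hμ R ζ N hR hRN hζ.1 hζ.2) (by positivity)
    have b3 := hl2 μ hμ R (6 * R) (5 * R) (by positivity) (by linarith) (by linarith)
    rw [intervalIntegral.integral_mul_const] at b2
    rw [b1]
    refine b2.trans ((mul_le_mul_of_nonneg_right b3 (by positivity)).trans (le_of_eq ?_))
    rw [Real.mul_rpow (by norm_num) hR0.le]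
    have e3 : R ^ (1 - 2 * α) = R ^ (1 - α) * R ^ (-α) := by
      rw [← Real.rpow_add hR0]
      congr 1
      ring
    rw [e3]
    ring
  rw [pairs_sum N J hJ]
  refine hsum.trans ?_
  have hYs : ∑ p ∈ Finset.Ioo (-(N : ℤ)) N, Y p = ∑ p ∈ Finset.Ioo (-(N : ℤ)) N,
      ∑ i ∈ Dp J p, ∑ j ∈ Dp J p, kr (3 * R) (Ph N y i p - Ph N y j p) := by rw [hY]
  rw [← hYs]
  exact mul_le_mul_of_nonneg_right hXs (Finset.sum_nonneg fun p _ => hY0 p)

end Pool.Agent.Q225.DS
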