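import Pool.Agent.Q66.DS.Basic

/-!
Project DS: choice of one dilation.
-/

set_option autoImplicit false

open MeasureTheory Set Metric Filter Topology

namespace Pool.Agent.Q225.DS

open Pool.Agent.Q66.DS

theorem two_pow_rpow (k : ℕ) (x : ℝ) : ((2 : ℝ) ^ k) ^ x = ((2 : ℝ) ^ x) ^ k := by
  rw [← Real.rpow_natCast, ← Real.rpow_natCast, ← Real.rpow_mul (by norm_num),
    ← Real.rpow_mul (by norm_num), mul_comm]

theorem t_PICK (h : S_BAD) : S_PICK := by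
  intro q α C L hα hα1 hC hq μ hμ Q β F hQ hβ hF hint
  obtain ⟨C', hC', hbad⟩ := h q α C L hα hα1 hC hq
  have := hμ.1
  have hP : (0 : ℝ) < 400 + (q : ℝ) := by positivity
  obtain ⟨η, hη⟩ : ∃ η : ℝ, η = (1 - α) / (4 * (400 + q)) := ⟨_, rfl⟩
  have hη0 : 0 < η := by rw [hη]; exact div_pos (by linarith) (by positivity)
  have hη2 : (1 - α) / (8 * (400 + (q : ℝ))) = η / 2 := by
    rw [hη]
    field_simp
    ring
  have hηP : η * (400 + q) = (1 - α) / 4 := by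
    rw [hη]
    field_simp
  rw [← hη] at hβ
  rw [hη2]
  obtain ⟨r, hr⟩ : ∃ r : ℝ, r = (2 : ℝ) ^ (-η) := ⟨_, rfl⟩
  have hr0 : 0 < r := by rw [hr]; positivity
  have hr1 : r < 1 := by
    rw [hr]
    exact Real.rpow_lt_one_of_one_lt_of_neg (by norm_num) (by linarith)
  have hs1 : 1 < (2 : ℝ) ^ ((1 - α) / 4) :=
    Real.one_lt_rpow (by norm_num) (by linarith)
  have ev1 : ∀ᶠ k : ℕ in atTop, C' < ((2 : ℝ) ^ ((1 - α) / 4)) ^ k :=
    (tendsto_pow_atTop_atTop_of_one_lt hs1).eventually_gt_atTop C'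
  have ev2 : ∀ᶠ k : ℕ in atTop, r ^ k < (1 - r) / 2 :=
    (tendsto_pow_atTop_nhds_zero_of_lt_one hr0.le hr1).eventually_lt_const
      (by linarith : (0 : ℝ) < (1 - r) / 2)
  obtain ⟨k0, hk0⟩ := (ev1.and ev2).exists_forall_of_atTop
  -- the integrals
  obtain ⟨Z, hZ⟩ : ∃ Z : Bool → ℕ → ℝ → ℝ → ℂ, Z = fun i k u y =>
    ∫ ξ in ((2 : ℝ) ^ k)..(2 * 2 ^ k), F i k ξ * (ch μ (Real.exp u * ξ) * e (-(y * ξ))) := ⟨_, rfl⟩
  obtain ⟨B, hB⟩ : ∃ B : Bool → ℕ → Set ℝ, B = fun i k => {u : ℝ | u ∈ Ioo (0 : ℝ) 1 ∧ ∃ y : ℝ,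
    ((2 : ℝ) ^ k) ^ (-η) * ((2 : ℝ) ^ k) ^ ((1 - α) / 2) * Real.sqrt (Q * ((2 : ℝ) ^ k) ^ β) <
      ‖Z i k u y‖} := ⟨_, rfl⟩
  have hvol : ∀ i k, k0 ≤ k → volume (B i k) ≤ ENNReal.ofReal (r ^ k) := by
    intro i k hk
    by_contra hcon
    rw [not_le, hr, ← two_pow_rpow] at hcon
    have hR1 : (1 : ℝ) ≤ 2 ^ k := one_le_pow₀ (by norm_num)
    have hR0 : (0 : ℝ) < 2 ^ k := by positivity
    rw [hB, hZ] at hcon
    have key := hbad μ hμ ((2 : ℝ) ^ k) (((2 : ℝ) ^ k) ^ (-η)) (Q * ((2 : ℝ) ^ k) ^ β) (F i k)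
      hR1 (by positivity) (hF i k) (hint i k) hcon
    have e1 : (((2 : ℝ) ^ k) ^ (-η)) ^ (400 + q) * ((2 : ℝ) ^ k) ^ ((1 - α) / 2)
        = ((2 : ℝ) ^ k) ^ ((1 - α) / 4) := by
      rw [← Real.rpow_natCast (((2 : ℝ) ^ k) ^ (-η)), ← Real.rpow_mul hR0.le, ← Real.rpow_add hR0]
      congr 1
      push_cast
      have : -η * (400 + (q : ℝ)) = -((1 - α) / 4) := by rw [← hηP]; ring
      rw [this]
      ring
    rw [e1, two_pow_rpow] at key
    exact absurd (hk0 k hk).1 (not_lt.2 key)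
  have hex : ∃ u ∈ Ioo (0 : ℝ) 1, ∀ i k, u ∉ B i (k0 + k) := by
    by_contra hcon
    push Not at hcon
    have hsub : Ioo (0 : ℝ) 1 ⊆ ⋃ i : Bool, ⋃ k : ℕ, B i (k0 + k) := by
      intro u hu
      obtain ⟨i, k, hik⟩ := hcon u hu
      exact mem_iUnion.2 ⟨i, mem_iUnion.2 ⟨k, hik⟩⟩
    have h1 := measure_mono (μ := volume) hsub
    rw [Real.volume_Ioo] at h1
    have h2 : ∀ i : Bool, volume (⋃ k : ℕ, B i (k0 + k)) ≤ ENNReal.ofReal (r ^ k0 / (1 - r)) := by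
      intro i
      refine (measure_iUnion_le _).trans ?_
      have hsm : Summable fun k : ℕ => r ^ (k0 + k) := by
        simp_rw [pow_add]
        exact (summable_geometric_of_lt_one hr0.le hr1).mul_left _
      have e2 : ∑' k : ℕ, r ^ (k0 + k) = r ^ k0 / (1 - r) := by
        simp_rw [pow_add]
        rw [tsum_mul_left, tsum_geometric_of_lt_one hr0.le hr1]
        rfl
      rw [← e2, ENNReal.ofReal_tsum_of_nonneg (fun k => by positivity) hsm]
      exact ENNReal.tsum_le_tsum fun k => hvol i (k0 + k) (Nat.le_add_right _ _)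
    have h3 : volume (⋃ i : Bool, ⋃ k : ℕ, B i (k0 + k))
        ≤ ENNReal.ofReal (r ^ k0 / (1 - r)) + ENNReal.ofReal (r ^ k0 / (1 - r)) := by
      refine (measure_iUnion_le _).trans ?_
      rw [tsum_fintype, Fintype.sum_bool]
      exact add_le_add (h2 true) (h2 false)
    have h4 := h1.trans h3
    have hpos : 0 ≤ r ^ k0 / (1 - r) := div_nonneg (by positivity) (by linarith)
    rw [← ENNReal.ofReal_add hpos hpos, ENNReal.ofReal_le_ofReal_iff (by linarith)] at h4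
    have h5 : r ^ k0 / (1 - r) < 1 / 2 := by
      rw [div_lt_iff₀ (by linarith)]
      have := (hk0 k0 le_rfl).2
      linarith
    linarith
  obtain ⟨u, hu, huB⟩ := hex
  have hM0 : ∀ i k, 0 ≤ ∫ ξ in ((2 : ℝ) ^ k)..(2 * 2 ^ k), ‖F i k ξ‖ := fun i k =>
    intervalIntegral.integral_nonneg (by linarith [show (0 : ℝ) < 2 ^ k by positivity])
      fun _ _ => norm_nonneg _
  obtain ⟨W, hW⟩ : ∃ W : Bool → ℕ → ℝ, W = fun i k =>
    (∫ ξ in ((2 : ℝ) ^ k)..(2 * 2 ^ k), ‖F i k ξ‖) * ((2 : ℝ) ^ k) ^ (η / 2) := ⟨_, rfl⟩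
  have hW0 : ∀ i k, 0 ≤ W i k := fun i k => by
    rw [hW]
    exact mul_nonneg (hM0 i k) (by positivity)
  refine ⟨u, ⟨hu.1.le, hu.2.le⟩, √Q + ∑ i : Bool, ∑ k ∈ Finset.range k0, W i k, ?_, ?_⟩
  · have h1 : 0 < √Q := Real.sqrt_pos.2 hQ
    have h2 : 0 ≤ ∑ i : Bool, ∑ k ∈ Finset.range k0, W i k :=
      Finset.sum_nonneg fun i _ => Finset.sum_nonneg fun k _ => hW0 i k
    linarith
  · intro i k y
    have hR1 : (1 : ℝ) ≤ 2 ^ k := one_le_pow₀ (by norm_num)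
    have hR0 : (0 : ℝ) < 2 ^ k := by positivity
    have hSS : 0 ≤ ∑ i : Bool, ∑ k ∈ Finset.range k0, W i k :=
      Finset.sum_nonneg fun i _ => Finset.sum_nonneg fun k _ => hW0 i k
    rcases lt_or_ge k k0 with hk | hk
    · have h1 : ‖∫ ξ in ((2 : ℝ) ^ k)..(2 * 2 ^ k),
          F i k ξ * (ch μ (Real.exp u * ξ) * e (-(y * ξ)))‖
          ≤ ∫ ξ in ((2 : ℝ) ^ k)..(2 * 2 ^ k), ‖F i k ξ‖ := by
        refine intervalIntegral.norm_integral_le_of_norm_le (by linarith) ?_ ?_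
        · refine Eventually.of_forall fun ξ _ => ?_
          rw [norm_mul, norm_mul, norm_e, mul_one]
          exact mul_le_of_le_one_right (norm_nonneg _) (norm_ch_le μ _)
        · exact ((hF i k).norm).intervalIntegrable _ _
      have h2 : (∫ ξ in ((2 : ℝ) ^ k)..(2 * 2 ^ k), ‖F i k ξ‖)
          = W i k * ((2 : ℝ) ^ k) ^ (-(η / 2)) := by
        rw [hW, mul_assoc, ← Real.rpow_add hR0, add_neg_cancel, Real.rpow_zero, mul_one]
      rw [h2] at h1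
      refine h1.trans (mul_le_mul_of_nonneg_right ?_ (by positivity))
      have h3 : W i k ≤ ∑ k ∈ Finset.range k0, W i k :=
        Finset.single_le_sum (f := fun k => W i k) (fun k _ => hW0 i k) (Finset.mem_range.2 hk)
      have h4 : ∑ k ∈ Finset.range k0, W i k ≤ ∑ i : Bool, ∑ k ∈ Finset.range k0, W i k :=
        Finset.single_le_sum (f := fun i => ∑ k ∈ Finset.range k0, W i k)
          (fun i _ => Finset.sum_nonneg fun k _ => hW0 i k) (Finset.mem_univ i)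
      have h5 := Real.sqrt_nonneg Q
      linarith
    · obtain ⟨l, rfl⟩ := Nat.exists_eq_add_of_le hk
      have h1 := huB i l
      rw [hB] at h1
      have h2 : ¬ ∃ y : ℝ, ((2 : ℝ) ^ (k0 + l)) ^ (-η) * ((2 : ℝ) ^ (k0 + l)) ^ ((1 - α) / 2) *
          Real.sqrt (Q * ((2 : ℝ) ^ (k0 + l)) ^ β) < ‖Z i (k0 + l) u y‖ := fun h3 => h1 ⟨hu, h3⟩
      push Not at h2
      have h3 := h2 y
      rw [hZ] at h3
      refine h3.trans ?_
      obtain ⟨R, hR⟩ : ∃ R : ℝ, R = 2 ^ (k0 + l) := ⟨_, rfl⟩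
      rw [← hR] at hR1 hR0 ⊢
      have e3 : Real.sqrt (Q * R ^ β) = √Q * R ^ (β / 2) := by
        rw [Real.sqrt_mul hQ.le, Real.sqrt_eq_rpow (R ^ β), ← Real.rpow_mul hR0.le]
        congr 2
        ring
      have e4 : R ^ (-η) * R ^ ((1 - α) / 2) * (√Q * R ^ (β / 2))
          = √Q * R ^ (-η + (1 - α) / 2 + β / 2) := by
        rw [Real.rpow_add hR0, Real.rpow_add hR0]
        ring
      rw [e3, e4]
      have h6 : R ^ (-η + (1 - α) / 2 + β / 2) ≤ R ^ (-(η / 2)) :=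
        Real.rpow_le_rpow_of_exponent_le hR1 (by linarith)
      have h7 : √Q * R ^ (-η + (1 - α) / 2 + β / 2) ≤ √Q * R ^ (-(η / 2)) :=
        mul_le_mul_of_nonneg_left h6 (Real.sqrt_nonneg _)
      refine h7.trans (mul_le_mul_of_nonneg_right ?_ (by positivity))
      linarith

end Pool.Agent.Q225.DS
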